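import Pool.Agent.U410.ES.ErCl
import Pool.Agent.N13.PL.All
import Pool.Agent.N13.EU.Odd
import Pool.Agent.N613.RP.Np

set_option autoImplicit false
set_option linter.unusedSectionVars false

/-! # The class of locally small flag spheres -/

namespace Pool.Agent.U410.ES

open Pool.Agent.W497.FS
open Pool.Agent.U410.CO (Th Tree th_zero)
open Pool.Agent.N13.EU (ER Hered hered_ER)
open Pool.Agent.TH652.Above (HSph)

/-- The class `Sm`: `X` is a set of vertices of the graph `G` which spans a flag normal pseudo-manifold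
of dimension `n - 1` (`NP G n X`), and (1) `n ≤ 4`, or (2) `X` has at most `3 n - c` elements, where `c`
is the number of join factors, or (3) `n` is even and the links of all vertices are in the class, or
(4) `n` is odd, the links of all edges are in the class, and the non-neighbours of some vertex span a tree,
or (5) it is the join of two members of the class. -/
inductive Sm {V : Type} (G : SimpleGraph V) [DecidableEq V] : ℕ → Finset V → Prop
  | low {n : ℕ} {X : Finset V} : NP G n X → n ≤ 4 → Sm G n X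
  | few {n : ℕ} {X : Finset V} : NP G n X → X.card + (comps G X).card ≤ 3 * n → Sm G n X
  | even {m : ℕ} {X : Finset V} : NP G (2 * m + 2) X → (∀ v ∈ X, Sm G (2 * m + 1) (lk G X v)) →
      Sm G (2 * m + 2) X
  | odd {m : ℕ} {X : Finset V} {v : V} : NP G (2 * m + 3) X → v ∈ X → Tree G (nn G X v) →
      (∀ x ∈ X, ∀ y ∈ lk G X x, Sm G (2 * m + 1) (lk G (lk G X x) y)) → Sm G (2 * m + 3) X
  | join {m n : ℕ} {A B : Finset V} : NP G (m + n) (A ∪ B) → Full G A B → Sm G m A → Sm G n B →
      Sm G (m + n) (A ∪ B)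

section Cls

variable {V : Type} [DecidableEq V] {G : SimpleGraph V}

theorem Sm.np {n : ℕ} {X : Finset V} (h : Sm G n X) : NP G n X := by
  cases h with
  | low h _ => exact h
  | few h _ => exact h
  | even h _ => exact h
  | odd h _ _ _ => exact h
  | join h _ _ _ => exact h

/-- the class is closed under links -/
theorem Sm.lk {n : ℕ} {X : Finset V} (h : Sm G n X) : ∀ v ∈ X, ∀ m, n = m + 1 →
    Sm G m (Pool.Agent.W497.FS.lk G X v) := by
  induction h with
  | low h h4 =>
    rintro v hv m rfl
    exact Sm.low (h.lk hv) (by omega)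
  | @few n X h hc =>
    rintro v hv m rfl
    refine Sm.few (h.lk hv) ?_
    have := h.defect_lk v hv
    omega
  | @even m' X h hl ih =>
    intro v hv m hm
    obtain rfl : m = 2 * m' + 1 := by omega
    exact hl v hv
  | @odd m' X w h hw hT hl ih =>
    intro v hv m hm
    obtain rfl : m = 2 * m' + 2 := by omega
    exact Sm.even (h.lk hv) fun y hy => hl v hv y hy
  | @join d e A B h hAB hA hB ihA ihB =>
    intro v hv m hm
    have hnp := h
    rw [hm] at hnp
    rcases Finset.mem_union.1 hv with hv' | hv'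
    · obtain ⟨d', rfl⟩ := hA.np.rank_pos hv'
      obtain rfl : m = d' + e := by omega
      have h1 := hnp.lk hv
      rw [hAB.lk_left hv'] at h1 ⊢
      exact Sm.join h1 (hAB.mono lk_subset (Finset.Subset.refl B)) (ihA v hv' d' rfl) hB
    · obtain ⟨e', rfl⟩ := hB.np.rank_pos hv'
      obtain rfl : m = d + e' := by omega
      have h1 := hnp.lk hv
      rw [hAB.lk_right hv'] at h1 ⊢
      exact Sm.join h1 (hAB.mono (Finset.Subset.refl A) lk_subset) hA (ihB v hv' e' rfl)

end Cls

section Fin

variable {V : Type} [Fintype V] [LinearOrder V] {G : SimpleGraph V} {N : ℕ}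

theorem sph_of_hsph (hS : HSph N G) : Pool.Agent.R580.CD.Sph ℝ N G := by
  intro T hT i
  have h := hS T hT i
  rw [← h]
  have h1 : ∀ (A : Set V) (i : ℕ), Pool.Agent.W907.SG.KK G (fun _ => (- LinearMap.id : ℝ →ₗ[ℝ] ℝ)) A ∅ i =
      Pool.Agent.R580.CD.CC ℝ G A i := by
    intro A i
    ext c
    rw [Pool.Agent.W907.SG.mem_KK, Pool.Agent.R580.CD.mem_CC]
    constructor
    · intro h T hT
      exact h.1 T hT
    · intro h
      exact ⟨fun T hT => h T hT, fun T t _ => by simp⟩
  unfold Pool.Agent.R580.CD.betti Pool.Agent.W907.SG.beta Pool.Agent.W907.SG.ZZ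
    Pool.Agent.W907.SG.BB Pool.Agent.R580.CD.Zy Pool.Agent.R580.CD.By
  rw [h1, h1]
  rfl

theorem np_of_hsph (hS : HSph N G) : NP G N (Finset.univ : Finset V) :=
  Pool.Agent.N613.RP.np (sph_of_hsph hS)

/-- `X` is the vertex set of the link of a simplex, of rank `n` -/
def LinkOf (G : SimpleGraph V) (N : ℕ) (X : Finset V) (n : ℕ) : Prop :=
  ∃ T ∈ cl G (Finset.univ : Finset V), n + T.card = N ∧ X = lkF G Finset.univ T

theorem clique_iff {T : Finset V} : T ∈ cl G (Finset.univ : Finset V) ↔ G.IsClique (T : Set V) := by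
  rw [mem_cl]
  constructor
  · rintro ⟨-, h⟩ x hx y hy hxy
    exact h x hx y hy hxy
  · intro h
    exact ⟨Finset.subset_univ T, fun x hx y hy hxy => h hx hy hxy⟩

theorem lkF_univ (T : Finset V) : ((lkF G Finset.univ T : Finset V) : Set V) =
    Pool.Agent.W907.SM.lk G T := by
  ext x
  rw [Finset.mem_coe, mem_lkF]
  constructor
  · rintro ⟨-, h⟩ u hu
    exact (h u hu).symm
  · intro h
    exact ⟨Finset.mem_univ _, fun u hu => (h u hu).symm⟩

theorem LinkOf.np (hS : HSph N G) {X : Finset V} {n : ℕ} (h : LinkOf G N X n) : NP G n X := by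
  obtain ⟨T, hT, hn, rfl⟩ := h
  obtain ⟨e, he, hNP, -, -⟩ := (np_of_hsph hS).lkF hT
  obtain rfl : e = n := by omega
  exact hNP

theorem LinkOf.lk {X : Finset V} {n : ℕ} (h : LinkOf G N X (n + 1)) {v : V} (hv : v ∈ X) :
    LinkOf G N (Pool.Agent.W497.FS.lk G X v) n := by
  obtain ⟨T, hT, hn, rfl⟩ := h
  have hvT : v ∉ T := fun h => ((mem_lkF.1 hv).2 v h).ne rfl
  refine ⟨insert v T, ?_, ?_, lkF_insert.symm⟩
  · have h1 := union_mem_cl hT (singleton_mem_cl (H := G) hv)
    rwa [Finset.union_comm, ← Finset.insert_eq] at h1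
  · rw [Finset.card_insert_of_notMem hvT]
    omega

theorem LinkOf.left {A B : Finset V} {m n : ℕ} (h : LinkOf G N (A ∪ B) (m + n))
    (hAB : Full G A B) (hB : NP G n B) : LinkOf G N A m := by
  obtain ⟨T, hT, hn, hX⟩ := h
  obtain ⟨β, hβ, hc, he⟩ := hB.exists_facet
  have hβ' : β ∈ cl G (lkF G Finset.univ T) := by
    rw [← hX]
    exact cl_mono Finset.subset_union_right hβ
  refine ⟨T ∪ β, union_mem_cl hT hβ', ?_, ?_⟩
  · rw [Finset.card_union_of_disjoint (disjoint_of_mem_cl_lkF hβ'), hc]
    omega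
  · rw [← lkF_lkF, ← hX, hAB.lkF_right (mem_cl.1 hβ).1, he, Finset.union_empty]

theorem LinkOf.right {A B : Finset V} {m n : ℕ} (h : LinkOf G N (A ∪ B) (m + n))
    (hAB : Full G A B) (hA : NP G m A) : LinkOf G N B n := by
  rw [Finset.union_comm, add_comm] at h
  exact h.left hAB.symm hA

theorem hsph_inst {U : Type} (i₁ i₂ : Fintype U) [LinearOrder U] {G' : SimpleGraph U} {n : ℕ}
    (h : @HSph n U i₁ _ G') : @HSph n U i₂ _ G' := by
  obtain rfl : i₁ = i₂ := Subsingleton.elim _ _
  exact h

theorem LinkOf.low (hS : HSph N G) {X : Finset V} {n : ℕ} (h : LinkOf G N X n) (h4 : n ≤ 4) :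
    ER (2 * (n / 2)) (G.induce (X : Set V)) := by
  classical
  have hnp := h.np hS
  have key : ∀ k, n = k → k = 3 ∨ k = 4 → HSph k (G.induce (X : Set V)) := by
    rintro k rfl _
    obtain ⟨T, hT, hn, rfl⟩ := h
    have h1 := Pool.Agent.R703.CW.hsph_link hS T (clique_iff.1 hT)
    rw [show N - T.card = n by omega] at h1
    have h2 := lkF_univ (G := G) T
    revert h1
    generalize (Pool.Agent.W907.SM.lk G T) = Y at h2
    subst h2
    intro h1
    exact hsph_inst _ _ h1
  rcases n with _ | _ | _ | _ | _ | n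
  · have h0 : X = ∅ := hnp
    rw [h0]
    exact cl_er.empty 0
  · have h' : X.card = 2 ∧ ∀ x ∈ X, ∀ y ∈ X, ¬ G.Adj x y := hnp
    exact er_card (n := 0) (by omega)
  · refine cl_er.of_lk (t := 0) fun v hv => ?_
    have h' : (Pool.Agent.W497.FS.lk G X v).card = 2 ∧ ∀ x ∈ Pool.Agent.W497.FS.lk G X v,
      ∀ y ∈ Pool.Agent.W497.FS.lk G X v, ¬ G.Adj x y := hnp.lk hv
    exact er_card (n := 0) (by omega)
  · exact ER.pred (m := 1) _ (Pool.Agent.N13.PL.three _ _ (key 3 rfl (Or.inl rfl)))
  · exact Pool.Agent.N13.PL.er_four Pool.Agent.N13.PL.three (key 4 rfl (Or.inr rfl))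
  · omega

/-- the class `Sm` and the class `ER` -/
theorem er_of_sm (hS : HSph N G) {X : Finset V} {n : ℕ} (h : Sm G n X) : LinkOf G N X n →
    ER (2 * (n / 2)) (G.induce (X : Set V)) := by
  induction h with
  | low h h4 => intro hL; exact hL.low hS h4
  | few h hc => intro hL; exact cl_er.of_th (th_zero h hc)
  | @even m X h hl ih =>
    intro hL
    rw [show (2 * m + 2) / 2 = m + 1 by omega]
    refine cl_er.of_lk fun v hv => ?_
    have := ih v hv (hL.lk hv)
    rwa [show (2 * m + 1) / 2 = m by omega] at this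
  | @odd m X v h hv hT _ ih =>
    intro hL
    rw [show (2 * m + 3) / 2 = m + 1 by omega]
    refine cl_er.odd (d := 2 * m) h hv hT fun x hx y hy => ?_
    have := ih x hx y hy (LinkOf.lk (LinkOf.lk hL hx) hy)
    rwa [show (2 * m + 1) / 2 = m by omega] at this
  | @join d e A B h hAB hA hB ihA ihB =>
    intro hL
    have := er_join (G := G) (A := (A : Set V)) (B := (B : Set V)) hAB
      (ihA (hL.left hAB hB.np)) (ihB (hL.right hAB hA.np))
    rw [← Finset.coe_union] at this
    exact er_le (by omega) this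

theorem lkF_empty0 {X : Finset V} : lkF G X ∅ = X := by
  ext x; rw [mem_lkF]; simp

/-- all links -/
theorem sm_links (h : Sm G N Finset.univ) (T : Finset V) : T ∈ cl G (Finset.univ : Finset V) →
    ∀ n, n + T.card = N → Sm G n (lkF G Finset.univ T) := by
  induction T using Finset.induction_on with
  | empty =>
    intro _ n hn
    rw [Finset.card_empty, add_zero] at hn
    rw [lkF_empty0, hn]
    exact h
  | insert v T hv ih =>
    intro hT n hn
    rw [Finset.card_insert_of_notMem hv] at hn
    have hT' : T ∈ cl G (Finset.univ : Finset V) := cl_of_subset hT (Finset.subset_insert v T)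
    have h1 := ih hT' (n + 1) (by omega)
    rw [lkF_insert]
    refine h1.lk v ?_ n rfl
    rw [mem_cl] at hT
    exact mem_lkF.2 ⟨Finset.mem_univ _, fun y hy => hT.2 y (Finset.mem_insert_of_mem hy) v
      (Finset.mem_insert_self v T) fun h => hv (h ▸ hy)⟩

/-- **the hereditary vanishing** -/
theorem hered_of_sm (hS : HSph N G) (h : Sm G N Finset.univ) : Hered N G := by
  refine hered_ER hS fun T hT => ?_
  have hT' := clique_iff.2 hT
  have hc := (np_of_hsph hS).card_le hT'
  have h1 := er_of_sm hS (sm_links h T hT' (N - T.card) (by omega))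
    ⟨T, hT', by omega, rfl⟩
  rw [lkF_univ] at h1
  exact er_le (by omega) h1

end Fin

end Pool.Agent.U410.ES
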