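import Pool.Agent.U410.CO.Thin

set_option autoImplicit false
set_option linter.unusedSectionVars false

/-! # The elimination of vertices, for an abstract class -/

namespace Pool.Agent.U410.ES

open Pool.Agent.W497.FS
open Pool.Agent.U410.CO (Th Tree nn_conn)

/-- a class of bounds closed under the elementary operations -/
structure Cl {α : Type} [DecidableEq α] (H : SimpleGraph α) (P : ℕ → Finset α → Prop) : Prop where
  empty : ∀ t, P t ∅
  mono : ∀ {t : ℕ} {A B : Finset α}, P t A → B ⊆ A → P t B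
  cone : ∀ {t : ℕ} {A : Finset α} {v : α}, (∀ x ∈ A, H.Adj v x) → P t A → P t (insert v A)
  susp : ∀ {t : ℕ} {A : Finset α} {v w : α}, v ≠ w → ¬ H.Adj v w →
      (∀ x ∈ A, H.Adj v x ∧ H.Adj w x) → P t A → P t (insert v (insert w A))
  vert : ∀ {t : ℕ} {A : Finset α} {v : α}, v ∉ A → P (t + 1) A → P t (lk H A v) → P (t + 1) (insert v A)

variable {α : Type} [DecidableEq α] {H : SimpleGraph α}

theorem Cl.of_th {P₀ : ℕ → Finset α → Prop} (c₀ : Cl H P₀) {t : ℕ} {A : Finset α} (h : Th H t A) :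
    P₀ t A := by
  induction h with
  | empty t => exact c₀.empty t
  | cone h _ ih => exact c₀.cone h ih
  | susp h1 h2 h3 _ ih => exact c₀.susp h1 h2 h3 ih
  | vert hv _ _ ih1 ih2 => exact c₀.vert hv ih1 ih2

/-- adding many vertices -/
theorem Cl.add {P₀ : ℕ → Finset α → Prop} (c₀ : Cl H P₀) {t : ℕ} {B : Finset α} (hB : P₀ (t + 1) B)
    (R : Finset α) (hR : ∀ x ∈ R, P₀ t (lk H (B ∪ R) x)) : P₀ (t + 1) (B ∪ R) := by
  induction R using Finset.induction_on with
  | empty => rwa [Finset.union_empty]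
  | insert x R hx ih =>
    have hs : B ∪ R ⊆ B ∪ insert x R :=
      Finset.union_subset_union (Finset.Subset.refl B) (Finset.subset_insert x R)
    have h1 : P₀ (t + 1) (B ∪ R) := ih fun y hy =>
      c₀.mono (hR y (Finset.mem_insert_of_mem hy)) (lk_mono hs y)
    by_cases hxB : x ∈ B ∪ R
    · rwa [Finset.union_insert, Finset.insert_eq_of_mem hxB]
    · rw [Finset.union_insert]
      exact c₀.vert hxB h1 (c₀.mono (hR x (Finset.mem_insert_self x R)) (lk_mono hs x))

/-- from the links of the vertices -/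
theorem Cl.of_lk {P₀ : ℕ → Finset α → Prop} (c₀ : Cl H P₀) {t : ℕ} {X : Finset α}
    (h : ∀ x ∈ X, P₀ t (lk H X x)) : P₀ (t + 1) X := by
  have := c₀.add (c₀.empty (t + 1)) X (fun x hx => by
    rw [Finset.empty_union]
    exact h x hx)
  rwa [Finset.empty_union] at this

theorem Cl.tree {P₀ : ℕ → Finset α → Prop} (c₀ : Cl H P₀) {t : ℕ} {v : α} {L N : Finset α} (hN : Tree H N) (hvL : ∀ x ∈ L, H.Adj v x)
    (hTL : P₀ (t + 1) L) (hlk : ∀ x ∈ L, P₀ t (lk H L x)) :
    (∀ c ∈ N, c ≠ v ∧ ¬ H.Adj v c) →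
    (∀ a ∈ N, ∀ b ∈ N, H.Adj a b → P₀ t (lk H (lk H L a) b)) →
    ∀ {L' : Finset α}, L' ⊆ L →
    (∀ x ∈ L', ∃ c ∈ N, H.Adj x c) →
    (∀ x ∈ L', ∀ y ∈ L', H.Adj x y → ∃ c ∈ N, H.Adj x c ∧ H.Adj y c) →
    (∀ x ∈ L', ∀ P Q : Finset α, P.Nonempty → Q.Nonempty → Disjoint P Q → P ∪ Q = lk H N x →
      ∃ p ∈ P, ∃ q ∈ Q, H.Adj p q) → P₀ (t + 1) (insert v (L' ∪ N)) := by
  classical
  induction hN with
  | one b =>
    intro hv _ L' hL' I1 _ _
    have hb := hv b (Finset.mem_singleton_self b)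
    rw [Finset.union_comm, ← Finset.insert_eq]
    refine c₀.susp hb.1.symm hb.2 (fun x hx => ⟨hvL x (hL' hx), ?_⟩) (c₀.mono hTL hL')
    obtain ⟨c, hc, h⟩ := I1 x hx
    rw [Finset.mem_singleton] at hc
    rw [← hc]
    exact h.symm
  | @leaf N a b hN haN hbN hab ih =>
    intro hv hedge L' hL' I1 I2 I3
    have hva := hv a (Finset.mem_insert_self a N)
    have key : ∀ x ∈ L', H.Adj x a → (∃ c ∈ N, H.Adj x c) → H.Adj x b := by
      rintro x hx hxa ⟨c, hc, hxc⟩
      obtain ⟨p, hp, q, hq, hpq⟩ := I3 x hx {a} (lk H N x) ⟨a, by simp⟩ ⟨c, mem_lk.2 ⟨hc, hxc⟩⟩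
        (by
          rw [Finset.disjoint_singleton_left]
          exact fun h => haN (lk_subset h))
        (by
          ext y
          rw [Finset.mem_union, Finset.mem_singleton, mem_lk, mem_lk, Finset.mem_insert]
          constructor
          · rintro (rfl | ⟨h1, h2⟩)
            · exact ⟨Or.inl rfl, hxa⟩
            · exact ⟨Or.inr h1, h2⟩
          · rintro ⟨rfl | h1, h2⟩
            · exact Or.inl rfl
            · exact Or.inr ⟨h1, h2⟩)
      rw [Finset.mem_singleton] at hp
      rw [hp] at hpq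
      rw [mem_lk] at hq
      rw [← (hab q hq.1).1 hpq]
      exact hq.2
    let R : Finset α := L'.filter (fun x => H.Adj x a ∧ ∀ c ∈ N, ¬ H.Adj x c)
    have hR : ∀ x, x ∈ R ↔ x ∈ L' ∧ H.Adj x a ∧ ∀ c ∈ N, ¬ H.Adj x c := fun x => Finset.mem_filter
    have hRn : ∀ x ∈ L' \ R, H.Adj x a → ∃ c ∈ N, H.Adj x c := by
      intro x hx hxa
      rw [Finset.mem_sdiff] at hx
      by_contra hc
      push Not at hc
      exact hx.2 ((hR x).2 ⟨hx.1, hxa, hc⟩)
    have hsub : L' \ R ⊆ L' := Finset.sdiff_subset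
    have hB : P₀ (t + 1) (insert v ((L' \ R) ∪ N)) := by
      refine ih (fun c hc => hv c (Finset.mem_insert_of_mem hc)) (fun a' ha' b' hb' =>
        hedge a' (Finset.mem_insert_of_mem ha') b' (Finset.mem_insert_of_mem hb'))
        (hsub.trans hL') ?_ ?_ ?_
      · intro x hx
        obtain ⟨c, hc, hxc⟩ := I1 x (hsub hx)
        rcases Finset.mem_insert.1 hc with rfl | hc
        · exact hRn x hx hxc
        · exact ⟨c, hc, hxc⟩
      · intro x hx y hy hxy
        obtain ⟨c, hc, hxc, hyc⟩ := I2 x (hsub hx) y (hsub hy) hxy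
        rcases Finset.mem_insert.1 hc with rfl | hc
        · exact ⟨b, hbN, key x (hsub hx) hxc (hRn x hx hxc), key y (hsub hy) hyc (hRn y hy hyc)⟩
        · exact ⟨c, hc, hxc, hyc⟩
      · intro x hx P Q hP hQ hPQ hun
        by_cases hxa : H.Adj x a
        · have hxb := key x (hsub hx) hxa (hRn x hx hxa)
          have hb' : b ∈ P ∪ Q := by rw [hun]; exact mem_lk.2 ⟨hbN, hxb⟩
          have hPN : ∀ p ∈ P, p ∈ N := fun p hp => lk_subset (v := x) (H := H) (by
            rw [← hun]; exact Finset.mem_union_left _ hp)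
          have hQN : ∀ p ∈ Q, p ∈ N := fun p hp => lk_subset (v := x) (H := H) (by
            rw [← hun]; exact Finset.mem_union_right _ hp)
          have hlk' : lk H (insert a N) x = insert a (P ∪ Q) := by
            rw [hun]
            ext y
            rw [mem_lk, Finset.mem_insert, Finset.mem_insert, mem_lk]
            constructor
            · rintro ⟨rfl | h1, h2⟩
              · exact Or.inl rfl
              · exact Or.inr ⟨h1, h2⟩
            · rintro (rfl | ⟨h1, h2⟩)
              · exact ⟨Or.inl rfl, hxa⟩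
              · exact ⟨Or.inr h1, h2⟩
          rcases Finset.mem_union.1 hb' with hb' | hb'
          · obtain ⟨p, hp, q, hq, hpq⟩ := I3 x (hsub hx) (insert a P) Q (Finset.insert_nonempty a P) hQ
              (Finset.disjoint_insert_left.2 ⟨fun h => haN (hQN a h), hPQ⟩) (by
                rw [hlk', Finset.insert_union])
            rcases Finset.mem_insert.1 hp with rfl | hp
            · have := (hab q (hQN q hq)).1 hpq
              exact absurd hq (fun h => Finset.disjoint_left.1 hPQ hb' (this ▸ h))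
            · exact ⟨p, hp, q, hq, hpq⟩
          · obtain ⟨p, hp, q, hq, hpq⟩ := I3 x (hsub hx) P (insert a Q) hP (Finset.insert_nonempty a Q)
              (Finset.disjoint_insert_right.2 ⟨fun h => haN (hPN a h), hPQ⟩) (by
                rw [hlk', Finset.union_insert])
            rcases Finset.mem_insert.1 hq with rfl | hq
            · have := (hab p (hPN p hp)).1 hpq.symm
              exact absurd hp (fun h => Finset.disjoint_left.1 hPQ (this ▸ h) hb')
            · exact ⟨p, hp, q, hq, hpq⟩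
        · refine I3 x (hsub hx) P Q hP hQ hPQ ?_
          rw [hun]
          ext y
          rw [mem_lk, mem_lk, Finset.mem_insert]
          constructor
          · rintro ⟨h1, h2⟩
            exact ⟨Or.inr h1, h2⟩
          · rintro ⟨rfl | h1, h2⟩
            · exact absurd h2 hxa
            · exact ⟨h1, h2⟩
    -- add `a`
    have hB2 : P₀ (t + 1) (insert a (insert v ((L' \ R) ∪ N))) := by
      refine c₀.vert ?_ hB ?_
      · rw [Finset.mem_insert, Finset.mem_union]
        rintro (h | h | h)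
        · exact hva.1 h
        · exact hva.2 (hvL a (hL' (hsub h)))
        · exact haN h
      · have h1 : P₀ t (insert b (lk H (lk H L a) b)) :=
          c₀.cone (fun x hx => (mem_lk.1 hx).2)
            (hedge a (Finset.mem_insert_self a N) b (Finset.mem_insert_of_mem hbN) ((hab b hbN).2 rfl))
        refine c₀.mono h1 ?_
        intro y hy
        rw [mem_lk, Finset.mem_insert, Finset.mem_union] at hy
        obtain ⟨hy1, hy2⟩ := hy
        rw [Finset.mem_insert]
        rcases hy1 with rfl | hy1 | hy1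
        · exact absurd hy2.symm hva.2
        · right
          rw [mem_lk, mem_lk]
          exact ⟨⟨hL' (hsub hy1), hy2⟩, (key y (hsub hy1) hy2.symm (hRn y hy1 hy2.symm)).symm⟩
        · left
          exact (hab y hy1).1 hy2
    -- add `R`
    have hB3 := c₀.add hB2 R (fun x hx => by
      obtain ⟨x1, x2, x3⟩ := (hR x).1 hx
      have h1 : P₀ t (insert v (insert a (lk H L' x))) := by
        refine c₀.susp hva.1.symm hva.2 (fun y hy => ?_)
          (c₀.mono (hlk x (hL' x1)) (lk_mono hL' x))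
        rw [mem_lk] at hy
        refine ⟨hvL y (hL' hy.1), ?_⟩
        obtain ⟨c, hc, hxc, hyc⟩ := I2 x x1 y hy.1 hy.2
        rcases Finset.mem_insert.1 hc with rfl | hc
        · exact hyc.symm
        · exact absurd hxc (x3 c hc)
      refine c₀.mono h1 ?_
      intro y hy
      rw [mem_lk, Finset.mem_union, Finset.mem_insert, Finset.mem_insert, Finset.mem_union] at hy
      obtain ⟨hy1, hy2⟩ := hy
      rw [Finset.mem_insert, Finset.mem_insert]
      rcases hy1 with (rfl | rfl | hy1 | hy1) | hy1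
      · exact Or.inr (Or.inl rfl)
      · exact Or.inl rfl
      · exact Or.inr (Or.inr (mem_lk.2 ⟨hsub hy1, hy2⟩))
      · exact absurd hy2 (x3 y hy1)
      · exact Or.inr (Or.inr (mem_lk.2 ⟨((hR y).1 hy1).1, hy2⟩)))
    have hset : insert a (insert v ((L' \ R) ∪ N)) ∪ R = insert v (L' ∪ insert a N) := by
      ext y
      simp only [Finset.mem_union, Finset.mem_insert, Finset.mem_sdiff]
      constructor
      · rintro ((h | h | ⟨h, -⟩ | h) | h)
        · exact Or.inr (Or.inr (Or.inl h))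
        · exact Or.inl h
        · exact Or.inr (Or.inl h)
        · exact Or.inr (Or.inr (Or.inr h))
        · exact Or.inr (Or.inl ((hR y).1 h).1)
      · rintro (h | h | h | h)
        · exact Or.inl (Or.inr (Or.inl h))
        · by_cases hy : y ∈ R
          · exact Or.inr hy
          · exact Or.inl (Or.inr (Or.inr (Or.inl ⟨h, hy⟩)))
        · exact Or.inl (Or.inl h)
        · exact Or.inl (Or.inr (Or.inr (Or.inr h)))
    rwa [hset] at hB3

/-- a vertex whose non-neighbours span a tree -/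
theorem Cl.odd {P₀ : ℕ → Finset α → Prop} (c₀ : Cl H P₀) {d t : ℕ} {X : Finset α} (h : NP H (d + 3) X) {v : α} (hv : v ∈ X)
    (hT : Tree H (nn H X v)) (hl : ∀ x ∈ X, ∀ y ∈ lk H X x, P₀ t (lk H (lk H X x) y)) :
    P₀ (t + 1) X := by
  have hX : insert v (lk H X v ∪ nn H X v) = X := by
    ext y
    rw [Finset.mem_insert, Finset.mem_union, mem_lk, mem_nn]
    constructor
    · rintro (rfl | h | h)
      · exact hv
      · exact h.1
      · exact h.1
    · intro hy
      by_cases h1 : y = v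
      · exact Or.inl h1
      by_cases h2 : H.Adj v y
      · exact Or.inr (Or.inl ⟨hy, h2⟩)
      · exact Or.inr (Or.inr ⟨hy, h1, h2⟩)
  have h1 : ∀ x ∈ lk H X v, P₀ t (lk H (lk H X v) x) := fun x hx => hl v hv x hx
  have hvx : ∀ x ∈ lk H X v, v ∈ lk H X x := fun x hx => mem_lk.2 ⟨hv, (mem_lk.1 hx).2.symm⟩
  rw [← hX]
  refine c₀.tree hT (fun x hx => (mem_lk.1 hx).2) (c₀.of_lk h1) h1 (fun c hc => (mem_nn.1 hc).2)
    ?_ (Finset.Subset.refl _) ?_ ?_ ?_
  · intro a ha b hb hab
    have ha' := (mem_nn.1 ha).1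
    have hb' := (mem_nn.1 hb).1
    exact c₀.mono (hl a ha' b (mem_lk.2 ⟨hb', hab⟩)) (lk_mono (lk_mono lk_subset a) b)
  · intro x hx
    obtain ⟨u, u1, u2, u3⟩ := (h.lk (lk_subset hx)).exists_nonadj (hvx x hx)
    exact ⟨u, mem_nn.2 ⟨lk_subset u1, u2, u3⟩, (mem_lk.1 u1).2⟩
  · intro x hx y hy hxy
    have hxX := lk_subset hx
    have hyx : y ∈ lk H X x := mem_lk.2 ⟨lk_subset hy, hxy⟩
    have hvy : v ∈ lk H (lk H X x) y := mem_lk.2 ⟨hvx x hx, (mem_lk.1 hy).2.symm⟩
    have hNP : NP H (d + 1) (lk H (lk H X x) y) := NP.lk (NP.lk h hxX) hyx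
    obtain ⟨u, u1, u2, u3⟩ := hNP.exists_nonadj hvy
    rw [mem_lk, mem_lk] at u1
    exact ⟨u, mem_nn.2 ⟨u1.1.1, u2, u3⟩, u1.1.2, u1.2⟩
  · intro x hx P Q hP hQ hPQ hun
    refine nn_conn (d := d) (h.lk (lk_subset hx)) (hvx x hx) hP hQ ?_ hPQ
    rw [hun]
    ext y
    rw [mem_lk, mem_nn, mem_nn, mem_lk]
    tauto

end Pool.Agent.U410.ES
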