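import Pool.Agent.U410.ES.Sm

set_option autoImplicit false
set_option linter.unusedSectionVars false

/-! # The class of flag spheres with a small link at a vertex of each large simplex -/

namespace Pool.Agent.U410.ES

open Pool.Agent.W497.FS
open Pool.Agent.U410.CO (Th Tree th_zero)
open Pool.Agent.N13.EU (ER)
open Pool.Agent.TH652.Above (HSph)

/-- The class `Em`: `X` is a set of vertices of the graph `G` which spans a flag normal pseudo-manifold
of dimension `n - 1` (`NP G n X`), and (1) `n ≤ 4`, or (2) `X` has at most `3 n - c` elements, where `c`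
is the number of join factors, or (3) `n = 2 m + 2` and the link of at least one vertex of every simplex with `m + 2`
vertices is in the class, or (4) `n` is odd, the links of all edges are in the class, and the non-neighbours of some
vertex span a tree, or (5) it is the join of two members of the class. -/
inductive Em {V : Type} (G : SimpleGraph V) [DecidableEq V] : ℕ → Finset V → Prop
  | low {n : ℕ} {X : Finset V} : NP G n X → n ≤ 4 → Em G n X
  | few {n : ℕ} {X : Finset V} : NP G n X → X.card + (comps G X).card ≤ 3 * n → Em G n X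
  | even {m : ℕ} {X B : Finset V} : NP G (2 * m + 2) X →
      (∀ T ⊆ X, G.IsClique (T : Set V) → T.card = m + 2 → ∃ v ∈ T, v ∉ B) →
      (∀ v ∈ X, v ∉ B → Em G (2 * m + 1) (lk G X v)) → Em G (2 * m + 2) X
  | odd {m : ℕ} {X : Finset V} {v : V} : NP G (2 * m + 3) X → v ∈ X → Tree G (nn G X v) →
      (∀ x ∈ X, ∀ y ∈ lk G X x, Em G (2 * m + 1) (lk G (lk G X x) y)) → Em G (2 * m + 3) X
  | join {m n : ℕ} {A B : Finset V} : NP G (m + n) (A ∪ B) → Full G A B → Em G m A → Em G n B →
      Em G (m + n) (A ∪ B)

section Cls

variable {V : Type} [DecidableEq V] {G : SimpleGraph V}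

theorem Em.np {n : ℕ} {X : Finset V} (h : Em G n X) : NP G n X := by
  cases h with
  | low h _ => exact h
  | few h _ => exact h
  | even h _ _ => exact h
  | odd h _ _ _ => exact h
  | join h _ _ _ => exact h

/-- the class `Sm` is contained in the class `Em` -/
theorem em_of_sm {n : ℕ} {X : Finset V} (h : Sm G n X) : Em G n X := by
  induction h with
  | low h h4 => exact Em.low h h4
  | few h hc => exact Em.few h hc
  | even h _ ih =>
    refine Em.even (B := ∅) h (fun T _ _ hT => ?_) fun v hv _ => ih v hv
    have : T.Nonempty := by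
      rw [← Finset.card_pos]
      omega
    obtain ⟨v, hv⟩ := this
    exact ⟨v, hv, by simp⟩
  | odd h hv hT _ ih => exact Em.odd h hv hT ih
  | join h hAB _ _ ihA ihB => exact Em.join h hAB ihA ihB

/-- even length -/
theorem er_locB {m : ℕ} {X B : Finset V}
    (hB : ∀ T ⊆ X, G.IsClique (T : Set V) → T.card = m + 2 → ∃ v ∈ T, v ∉ B)
    (hl : ∀ v ∈ X, v ∉ B → ER (2 * m) (G.induce ((lk G X v : Finset V) : Set V))) :
    ER (2 * (m + 1)) (G.induce (X : Set V)) := by
  classical
  rw [show 2 * (m + 1) = 2 * m + 2 by ring]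
  refine ER.loc (m := m) (G.induce (X : Set V)) {x : ↥(X : Set V) | (x : V) ∈ B} ?_ ?_
  · intro T hT hTB
    by_contra hcon
    push Not at hcon
    obtain ⟨U, hUT, hU⟩ := Finset.exists_subset_card_eq (show m + 2 ≤ T.card by omega)
    obtain ⟨v, hv, hvB⟩ := hB (U.map (Function.Embedding.subtype _)) (by
        intro x hx
        obtain ⟨y, _, rfl⟩ := Finset.mem_map.1 hx
        exact y.2) (by
        intro x hx y hy hxy
        rw [Finset.mem_coe] at hx hy
        obtain ⟨x', hx', rfl⟩ := Finset.mem_map.1 hx
        obtain ⟨y', hy', rfl⟩ := Finset.mem_map.1 hy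
        exact hT (Finset.mem_coe.2 (hUT hx')) (Finset.mem_coe.2 (hUT hy')) fun h => hxy (by rw [h]))
      (by rw [Finset.card_map, hU])
    obtain ⟨v', hv', rfl⟩ := Finset.mem_map.1 hv
    exact hvB (hTB (Finset.mem_coe.2 (hUT hv')))
  · intro v hv
    exact ER.succ _ (emb_nbr.er (hl v v.2 hv))

end Cls

section Fin

variable {V : Type} [Fintype V] [LinearOrder V] {G : SimpleGraph V} {N : ℕ}

/-- the class `Em` and the class `ER` -/
theorem er_of_em (hS : HSph N G) {X : Finset V} {n : ℕ} (h : Em G n X) : LinkOf G N X n →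
    ER (2 * (n / 2)) (G.induce (X : Set V)) := by
  induction h with
  | low h h4 => intro hL; exact hL.low hS h4
  | few h hc => intro hL; exact cl_er.of_th (th_zero h hc)
  | @even m X B h hB hl ih =>
    intro hL
    rw [show (2 * m + 2) / 2 = m + 1 by omega]
    refine er_locB hB fun v hv hvB => ?_
    have := ih v hv hvB (hL.lk hv)
    rwa [show (2 * m + 1) / 2 = m by omega] at this
  | @odd m X v h hv hT _ ih =>
    intro hL
    rw [show (2 * m + 3) / 2 = m + 1 by omega]
    refine cl_er.odd (d := 2 * m) h hv hT fun x hx y hy => ?_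
    have := ih x hx y hy (LinkOf.lk (LinkOf.lk hL hx) hy)
    rwa [show (2 * m + 1) / 2 = m by omega] at this
  | @join d e A B h hAB hA hB ihA ihB =>
    intro hL
    have := er_join (G := G) (A := (A : Set V)) (B := (B : Set V)) hAB
      (ihA (hL.left hAB hB.np)) (ihB (hL.right hAB hA.np))
    rw [← Finset.coe_union] at this
    exact er_le (by omega) this

/-- **the vanishing above the middle dimension** -/
theorem van_of_em (hS : HSph N G) (h : Em G N Finset.univ) (A : Finset V) (i : ℕ) (hi : N < 2 * i) :
    Pool.Agent.W907.SG.L2Van (G.induce (A : Set V)) i := by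
  have h1 := er_of_em hS h ⟨∅, by rw [clique_iff]; simp, by simp, by rw [lkF_empty0]⟩
  have h2 := Pool.Agent.N13.EU.Q_of_ER h1
  have h3 := Pool.Agent.R781.VS.Q_restrict h2 (A : Set V) (by simp) i (by omega)
  exact h3 _ _

end Fin

end Pool.Agent.U410.ES
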