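import Pool.Agent.U410.ES.Zero
import Pool.Agent.U410.ES.Abs

set_option autoImplicit false
set_option linter.unusedSectionVars false

/-! # The class `ER` is closed under the elementary operations -/

namespace Pool.Agent.U410.ES

open Pool.Agent.W497.FS
open Pool.Agent.N13.EU (ER)

variable {α : Type} [DecidableEq α] {H : SimpleGraph α}

theorem er_le {n n' : ℕ} (h : n ≤ n') {V : Type} {G : SimpleGraph V} (hG : ER n G) : ER n' G := by
  induction n' with
  | zero =>
    obtain rfl : n = 0 := by omega
    exact hG
  | succ k ih =>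
    rcases Nat.lt_or_ge n (k + 1) with h1 | h1
    · exact ER.succ _ (ih (by omega))
    · obtain rfl : n = k + 1 := by omega
      exact hG

theorem er_sub {n : ℕ} {A B : Finset α} (hA : ER n (H.induce (A : Set α))) (hB : B ⊆ A) :
    ER n (H.induce (B : Set α)) := by
  refine Emb.er' (j := fun x : ↥{x : ↥(A : Set α) | (x : α) ∈ B} => ((x : ↥(A : Set α)) : α)) ⟨?_, ?_, ?_⟩
    (ER.full _ {x : ↥(A : Set α) | (x : α) ∈ B} hA)
  · intro x y h
    exact Subtype.ext (Subtype.ext h)
  · intro x y
    exact Iff.rfl
  · intro y
    constructor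
    · intro hy
      exact ⟨⟨⟨y, hB hy⟩, hy⟩, rfl⟩
    · rintro ⟨x, rfl⟩
      exact x.2

theorem er_card {n : ℕ} {A : Finset α} (h : A.card ≤ 3 * n + 2) : ER (2 * n) (H.induce (A : Set α)) := by
  refine ER.few _ ?_
  rw [Nat.card_coe_set_eq, Set.ncard_coe_finset]
  exact h

theorem cl_er : Cl H (fun t A => ER (2 * t) (H.induce (A : Set α))) where
  empty t := er_card (by simp)
  mono h hB := er_sub h hB
  cone := by
    intro t A v hv h
    have h0 : ER (2 * 0) (H.induce (({v} : Finset α) : Set α)) := er_card (by simp)
    have h1 := er_join (G := H) (A := (({v} : Finset α) : Set α)) (B := (A : Set α)) (by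
      intro a ha b hb
      rw [Finset.mem_coe, Finset.mem_singleton] at ha
      rw [ha]
      exact hv b hb) h0 h
    rw [← Finset.coe_union, ← Finset.insert_eq] at h1
    rwa [show 2 * 0 + 2 * t = 2 * t by omega] at h1
  susp := by
    intro t A v w _ _ hvw h
    have h0 : ER (2 * 0) (H.induce (({v, w} : Finset α) : Set α)) := er_card (by
      have := Finset.card_le_two (a := v) (b := w)
      omega)
    have h1 := er_join (G := H) (A := (({v, w} : Finset α) : Set α)) (B := (A : Set α)) (by
      intro a ha b hb
      rw [Finset.mem_coe, Finset.mem_insert, Finset.mem_singleton] at ha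
      rcases ha with rfl | rfl
      · exact (hvw b hb).1
      · exact (hvw b hb).2) h0 h
    rw [← Finset.coe_union] at h1
    have h2 : ({v, w} : Finset α) ∪ A = insert v (insert w A) := by
      ext x
      simp only [Finset.mem_union, Finset.mem_insert, Finset.mem_singleton]
      tauto
    rwa [h2, show 2 * 0 + 2 * t = 2 * t by omega] at h1
  vert := by
    intro t A v hv h1 h2
    have hvi : v ∈ ((insert v A : Finset α) : Set α) := Finset.mem_coe.2 (Finset.mem_insert_self v A)
    have hlk : lk H (insert v A) v = lk H A v := by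
      ext x
      rw [mem_lk, mem_lk, Finset.mem_insert]
      constructor
      · rintro ⟨rfl | h, h'⟩
        · exact absurd h' (H.loopless.irrefl _)
        · exact ⟨h, h'⟩
      · rintro ⟨h, h'⟩
        exact ⟨Or.inr h, h'⟩
    have h1' : ER (2 * t + 2) (H.induce (A : Set α)) := by
      rw [show 2 * t + 2 = 2 * (t + 1) by ring]
      exact h1
    refine ER.vert (n := 2 * t) _ ⟨v, hvi⟩ ?_ ?_
    · refine Emb.er (j := fun x : ↥({⟨v, hvi⟩}ᶜ : Set ↥((insert v A : Finset α) : Set α)) =>
        ((x : ↥((insert v A : Finset α) : Set α)) : α)) ⟨?_, ?_, ?_⟩ h1'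
      · intro x y h
        exact Subtype.ext (Subtype.ext h)
      · intro x y
        exact Iff.rfl
      · intro y
        constructor
        · intro hy
          exact ⟨⟨⟨y, Finset.mem_coe.2 (Finset.mem_insert_of_mem hy)⟩, fun h => hv (by
            have : y = v := congrArg Subtype.val h
            rw [← this]
            exact hy)⟩, rfl⟩
        · rintro ⟨x, rfl⟩
          rcases Finset.mem_insert.1 (Finset.mem_coe.1 x.1.2) with h | h
          · exact absurd (Subtype.ext h) x.2
          · exact h
    · have := (emb_nbr (H := H) (C := insert v A) (s := ⟨v, hvi⟩)).er (by rw [hlk]; exact h2)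
      exact this

end Pool.Agent.U410.ES
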