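import Pool.Agent.U410.ES.Sm
import Pool.Agent.R782.Bal.Tay

set_option autoImplicit false
set_option linter.unusedSectionVars false

/-! # The Taylor coefficients of the `γ`-polynomial of spheres with locally small links -/

namespace Pool.Agent.U410.ES

open Pool.Agent.W497.FS
open Pool.Agent.W907.SG Pool.Agent.W907.SM
open Pool.Agent.N13.EU (ER Hered hered_ER Q_of_ER)
open Pool.Agent.TH652.Above (HSph chi_sign singer_of_above lv_univ)
open Pool.Agent.R782.Bal

section Fin

variable {V : Type} [Fintype V] [LinearOrder V] {G : SimpleGraph V} {n : ℕ}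

/-- links of nonempty simplices -/
theorem sm_links' (h : ∀ v, Sm G (n - 1) (Pool.Agent.W497.FS.lk G Finset.univ v)) (T : Finset V) :
    T.Nonempty → T ∈ cl G (Finset.univ : Finset V) →
    ∀ k, k + T.card = n → Sm G k (lkF G Finset.univ T) := by
  induction T using Finset.induction_on with
  | empty =>
    intro h0
    exact absurd h0 (by simp)
  | insert v T hv ih =>
    intro _ hT k hk
    rw [Finset.card_insert_of_notMem hv] at hk
    have hT' : T ∈ cl G (Finset.univ : Finset V) := cl_of_subset hT (Finset.subset_insert v T)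
    rcases T.eq_empty_or_nonempty with h0 | h0
    · subst h0
      rw [Finset.card_empty, zero_add] at hk
      rw [lkF_insert, lkF_empty0]
      have h1 := h v
      rwa [show n - 1 = k by omega] at h1
    · have h1 := ih h0 hT' (k + 1) (by omega)
      rw [lkF_insert]
      refine h1.lk v ?_ k rfl
      rw [mem_cl] at hT
      exact mem_lkF.2 ⟨Finset.mem_univ _, fun y hy => hT.2 y (Finset.mem_insert_of_mem hy) v
        (Finset.mem_insert_self v T) fun h => hv (h ▸ hy)⟩

/-- the Charney-Davis inequality for a link in the class -/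
theorem cd_link (hS : HSph n G) {l : ℕ} {T : Finset V} (hT : G.IsClique (T : Set V)) (hn : T.card + 2 * l = n)
    (h : Sm G (2 * l) (lkF G Finset.univ T)) : 0 ≤ (-1) ^ l * lam G (lkF G Finset.univ T) := by
  classical
  have h1 := er_of_sm hS h ⟨T, clique_iff.2 hT, by omega, rfl⟩
  rw [show 2 * (2 * l / 2) = 2 * l by omega, lkF_univ] at h1
  have h2 := Q_of_ER h1
  have : Fintype ↥(Pool.Agent.W907.SM.lk G T) := Fintype.ofFinite _
  have h3 := Pool.Agent.R703.CW.hsph_link hS T hT
  rw [show n - T.card = 2 * l by omega] at h3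
  have h4 : ∀ j, 2 * l < 2 * j → L2Van (G.induce (Pool.Agent.W907.SM.lk G T)) j := by
    intro j hj
    have h5 := h2.2 Set.univ j hj
    exact (lv_univ _ _).1 h5 _ _
  rw [← Pool.Agent.R703.CW.chiW_link T]
  exact chi_sign _ fun i hi => singer_of_above h3 h4 i (by omega)

end Fin

end Pool.Agent.U410.ES
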