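import Pool.Agent.U410.ES.Tay
import Pool.Agent.R703.CW.Main

set_option autoImplicit false
set_option linter.unusedSectionVars false

/-! # The weighted inequality for spheres with locally small links -/

namespace Pool.Agent.U410.ES

open Pool.Agent.W497.FS
open Pool.Agent.W907.SG Pool.Agent.W907.SM
open Pool.Agent.TH652.Above (HSph)
open Pool.Agent.R703.CW (Orders omegaN Heavy ge_ra mono mem_cl_univ omegaN_eq chiW_eq card_le_of_hsph)
open Y365.FS (ordM)

section Fin

variable {V : Type} [Fintype V] [LinearOrder V] {G : SimpleGraph V} {m : ℕ}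

/-- The links of the nonempty heavy faces with an even number of vertices, at most `2 m - 6`, are in the class. -/
def HeavyLinks (G : SimpleGraph V) (m : ℕ) (w : Finset V → ℕ) : Prop :=
  ∀ T : Finset V, G.IsClique (T : Set V) → Even T.card → Heavy w T → T.Nonempty → T.card + 6 ≤ 2 * m →
    Sm G (2 * m - T.card) (lkF G Finset.univ T)

theorem cd_heavy (hS : HSph (2 * m) G) {w : Finset V → ℕ} (hL : HeavyLinks G m w) (T : Finset V)
    (hT : T ∈ cl G Finset.univ) (hne : T.Nonempty) (hh : Heavy w T) (j l : ℕ) (hj : T.card = 2 * j)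
    (hl : j + l = m) : 0 ≤ (-1) ^ l * lam G (lkF G Finset.univ T) := by
  have hT' := (mem_cl_univ T).1 hT
  refine cd_link hS hT' (by omega) ?_
  rcases Nat.lt_or_ge 2 l with h | h
  · have h1 := hL T hT' ⟨j, by omega⟩ hh hne (by omega)
    rwa [show 2 * m - T.card = 2 * l by omega] at h1
  · exact Sm.low (LinkOf.np hS ⟨T, hT, by omega, rfl⟩) (by omega)

/-- weighted and right-angled quantities -/
theorem ge_sm (hS : HSph (2 * m) G) (w : Finset V → ℕ) (N : Finset V → ℚ) (hN : Orders G w N)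
    (hL : HeavyLinks G m w) : (-1) ^ m * chiW G ≤ (-1) ^ m * omegaN G N := by
  rw [omegaN_eq, chiW_eq]
  have hpair : ∀ e ∈ cl G Finset.univ, e.card = 2 → 2 ≤ w e ∧ N e = 2 * w e := by
    intro e he he2
    obtain ⟨u, v, huv, rfl⟩ := Finset.card_eq_two.1 he2
    exact hN.edge u v ((mem_cl_univ _).1 he (by simp) (by simp) huv)
  exact ge_ra m Finset.univ (fun T hT => card_le_of_hsph hS T ((mem_cl_univ T).1 hT)) w
    (fun e he he2 => (hpair e he he2).1) N hN.empty (fun v _ => hN.vertex v)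
    (fun e he he2 => (hpair e he he2).2)
    (fun A B hAB hAB2 h => hN.mul A B hAB ((mem_cl_univ _).1 hAB2) h)
    (fun T hT h3 hc => hN.sign T ((mem_cl_univ _).1 hT) h3 hc)
    (fun T hT hne hh j l hj hl => cd_heavy hS hL T hT hne hh j l hj hl)

/-- monotonicity in the weights -/
theorem mono_sm (hS : HSph (2 * m) G) (w w' : Finset V → ℕ) (hw : ∀ e, 2 ≤ w e)
    (hww : ∀ e, w e ≤ w' e)
    (hmat : ∀ u v z, G.Adj u v → G.Adj u z → G.Adj v z → w' {u, v} = 2 ∨ w' {u, z} = 2)
    (hL : HeavyLinks G m w') :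
    (-1) ^ m * omegaN G (ordM w) ≤ (-1) ^ m * omegaN G (ordM w') := by
  rw [omegaN_eq, omegaN_eq]
  refine mono m Finset.univ (fun T hT => card_le_of_hsph hS T ((mem_cl_univ T).1 hT)) w w' hw hww
    (fun T hT u hu v hv z hz h1 h2 h3 => ?_)
    (fun T hT hne hh j l hj hl => cd_heavy hS hL T hT hne hh j l hj hl)
  have h4 := (mem_cl_univ T).1 hT
  exact hmat u v z (h4 hu hv h1) (h4 hu hz h2) (h4 hv hz h3)

/-- the right-angled quantity -/
theorem chi_sm (hS : HSph (2 * m) G) (h : ∀ v, Sm G (2 * m - 1) (Pool.Agent.W497.FS.lk G Finset.univ v)) :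
    0 ≤ (-1) ^ m * chiW G := by
  have h1 := cd_link (l := m) (T := ∅) hS (by simp) (by simp) (by
    rw [lkF_empty0]
    rcases m with _ | k
    · exact Sm.low (np_of_hsph hS) (by omega)
    · refine Sm.even (m := k) (np_of_hsph hS) fun v _ => ?_
      have h4 := h v
      rwa [show 2 * (k + 1) - 1 = 2 * k + 1 by omega] at h4)
  rwa [lkF_empty0, ← chiW_eq] at h1

/-- the heavy links -/
theorem heavy_of_links (h : ∀ v, Sm G (2 * m - 1) (Pool.Agent.W497.FS.lk G Finset.univ v))
    (w : Finset V → ℕ) : HeavyLinks G m w := fun T hT _ _ hne h6 =>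
  sm_links' h T hne (clique_iff.2 hT) _ (by omega)

end Fin

end Pool.Agent.U410.ES
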