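import Pool.Agent.U410.FM.Comb
import Pool.Agent.N13.EU.Cls

set_option autoImplicit false
set_option linter.unusedSectionVars false

/-! # Flag complexes of defect zero are in the class `ER` -/

namespace Pool.Agent.U410.ES

open Pool.Agent.W497.FS
open Pool.Agent.U410.FM (Sq pair_mem_cl)
open Pool.Agent.N13.EU (ER)
open Pool.Agent.R781.VS (con NoSq)

/-- `G'` is (isomorphic to) the subgraph of `G` induced by `X` -/
structure Emb {U V : Type} (G' : SimpleGraph U) (G : SimpleGraph V) (X : Set V) (j : U → V) :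
    Prop where
  inj : Function.Injective j
  adj : ∀ x y, G'.Adj x y ↔ G.Adj (j x) (j y)
  mem : ∀ y, y ∈ X ↔ ∃ x, j x = y

theorem Emb.iso {U V : Type} {G' : SimpleGraph U} {G : SimpleGraph V} {X : Set V} {j : U → V}
    (h : Emb G' G X j) : Nonempty (G' ≃g G.induce X) := by
  refine ⟨⟨Equiv.ofBijective (fun u => (⟨j u, (h.mem _).2 ⟨u, rfl⟩⟩ : ↥X)) ⟨?_, ?_⟩, ?_⟩⟩
  · intro x y hxy
    exact h.inj (Subtype.ext_iff.1 hxy)
  · rintro ⟨y, hy⟩
    obtain ⟨x, rfl⟩ := (h.mem y).1 hy
    exact ⟨x, rfl⟩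
  · intro x y
    exact (h.adj x y).symm

theorem Emb.er {U V : Type} {G' : SimpleGraph U} {G : SimpleGraph V} {X : Set V} {j : U → V}
    (h : Emb G' G X j) {n : ℕ} (hX : ER n (G.induce X)) : ER n G' :=
  ER.iso _ _ ⟨h.iso.some.symm⟩ hX

theorem Emb.er' {U V : Type} {G' : SimpleGraph U} {G : SimpleGraph V} {X : Set V} {j : U → V}
    (h : Emb G' G X j) {n : ℕ} (hX : ER n G') : ER n (G.induce X) :=
  ER.iso _ _ h.iso hX

theorem er_join {V : Type} {G : SimpleGraph V} {A B : Set V} (hAB : ∀ a ∈ A, ∀ b ∈ B, G.Adj a b)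
    {m n : ℕ} (hA : ER m (G.induce A)) (hB : ER n (G.induce B)) :
    ER (m + n) (G.induce (A ∪ B)) := by
  refine Emb.er' (j := Sum.elim Subtype.val Subtype.val) ⟨?_, ?_, ?_⟩ (ER.join _ _ hA hB)
  · rintro (a | a) (b | b) h
    · exact congrArg _ (Subtype.ext h)
    · have h' : (a : V) = (b : V) := h
      exact absurd h' (hAB a a.2 b b.2).ne
    · have h' : (a : V) = (b : V) := h
      exact absurd h'.symm (hAB b b.2 a a.2).ne
    · exact congrArg _ (Subtype.ext h)
  · rintro (a | a) (b | b)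
    · exact Iff.rfl
    · exact ⟨fun _ => hAB a a.2 b b.2, fun _ => trivial⟩
    · exact ⟨fun _ => (hAB b b.2 a a.2).symm, fun _ => trivial⟩
    · exact Iff.rfl
  · intro y
    constructor
    · rintro (h | h)
      · exact ⟨Sum.inl ⟨y, h⟩, rfl⟩
      · exact ⟨Sum.inr ⟨y, h⟩, rfl⟩
    · rintro ⟨x | x, rfl⟩
      · exact Or.inl x.2
      · exact Or.inr x.2

theorem er_two {V : Type} [Finite V] (G : SimpleGraph V) (h : Nat.card V ≤ 2) : ER 1 G := by
  have h1 : ER (2 * 0) G := ER.few (m := 0) G (by omega)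
  exact ER.succ G h1

variable {α : Type} [DecidableEq α] {H : SimpleGraph α}

theorem er_empty : ER 0 (H.induce ((∅ : Finset α) : Set α)) := by
  have h1 : ER (2 * 0) (H.induce ((∅ : Finset α) : Set α)) := by
    refine ER.few (m := 0) _ ?_
    rw [Nat.card_coe_set_eq, Set.ncard_coe_finset, Finset.card_empty]
    omega
  exact h1

theorem er_pt {X : Finset α} (h : X.card ≤ 2) : ER 1 (H.induce (X : Set α)) := by
  refine er_two _ ?_
  rw [Nat.card_coe_set_eq, Set.ncard_coe_finset]
  exact h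

/-- the vertex with two non-neighbours -/
theorem prm_data {d : ℕ} {C : Finset α} (h : NP H (d + 2) C) (hE : Eul H (d + 2) C)
    (hp : Prm H C) (hc : C.card + 1 ≤ 3 * (d + 2)) :
    ∃ v ∈ C, ∃ a ∈ C, ∃ b ∈ C, H.Adj a b ∧ nn H C v = {a, b} ∧ Sq H C a b := by
  obtain ⟨v, hv, hpv, hm⟩ := exists_small (k := 0) h hp (by omega)
  have hm2 : (nn H C v).card = 2 := by
    have := Prm.two_le_nn h hp hv
    omega
  obtain ⟨a, b, hab, hM⟩ := Finset.card_eq_two.1 hm2
  have haM : a ∈ nn H C v := by rw [hM]; simp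
  have hbM : b ∈ nn H C v := by rw [hM]; simp
  have haW := nn_subset haM
  have hbW := nn_subset hbM
  have hadj : H.Adj a b := by
    by_contra hn
    have := euler_nn hE hv
    rw [hM, cl_pair_not hab hn] at this
    have h1 : (∅ : Finset α) ∉ ({{a}, {b}} : Finset (Finset α)) := by simp
    have h2 : ({a} : Finset α) ∉ ({{b}} : Finset (Finset α)) := by simp [hab]
    rw [Finset.sum_insert h1, Finset.sum_insert h2, Finset.sum_singleton] at this
    simp at this
  refine ⟨v, hv, a, haW, b, hbW, hadj, hM, ?_⟩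
  intro x hx y hy hxa hyb h1 h2 h3
  by_contra hcon
  push Not at hcon
  obtain ⟨c1, c2⟩ := hcon
  have hva := (mem_nn.1 haM).2.2
  have hvb := (mem_nn.1 hbM).2.2
  have inL : ∀ z ∈ C, z ≠ v → z ≠ a → z ≠ b → H.Adj v z := by
    intro z hz hzv hza hzb
    by_contra hn
    have : z ∈ nn H C v := mem_nn.2 ⟨hz, hzv, hn⟩
    rw [hM, Finset.mem_insert, Finset.mem_singleton] at this
    tauto
  have hvx : H.Adj v x := inL x hx (fun h => hvb (h ▸ h1.symm)) hxa h1.ne.symm
  have hvy : H.Adj v y := inL y hy (fun h => hva (h ▸ h3)) h3.ne hyb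
  have k1 := h.lk hx
  have hy1 : y ∈ lk H C x := mem_lk.2 ⟨hy, h2⟩
  obtain ⟨e, he, k2⟩ := k1.lk' hy1
  have hv2 : v ∈ lk H (lk H C x) y := mem_lk.2 ⟨mem_lk.2 ⟨hv, hvx.symm⟩, hvy.symm⟩
  obtain ⟨u, u1, u2, u3⟩ := k2.exists_nonadj hv2
  rw [mem_lk, mem_lk] at u1
  have : u ∈ nn H C v := mem_nn.2 ⟨u1.1.1, u2, u3⟩
  rw [hM, Finset.mem_insert, Finset.mem_singleton] at this
  rcases this with rfl | rfl
  · exact c1 u1.1.2.symm
  · exact c2 u1.2.symm

/-- the links of vertices -/
theorem emb_nbr {C : Finset α} {s : ↥(C : Set α)} :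
    Emb ((H.induce (C : Set α)).induce ((H.induce (C : Set α)).neighborSet s)) H
      ((lk H C (s : α) : Finset α) : Set α) (fun x => ((x : ↥(C : Set α)) : α)) := by
  refine ⟨fun x y h => Subtype.ext (Subtype.ext h), fun x y => Iff.rfl, fun y => ?_⟩
  rw [Finset.mem_coe, mem_lk]
  constructor
  · rintro ⟨h1, h2⟩
    exact ⟨⟨⟨y, h1⟩, h2⟩, rfl⟩
  · rintro ⟨x, rfl⟩
    exact ⟨x.1.2, x.2⟩

/-- the links of edges -/
theorem emb_edge {C : Finset α} {s t : ↥(C : Set α)} :
    Emb ((H.induce (C : Set α)).induce ((H.induce (C : Set α)).neighborSet s ∩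
      (H.induce (C : Set α)).neighborSet t)) H
      ((lkF H C {(s : α), (t : α)} : Finset α) : Set α) (fun x => ((x : ↥(C : Set α)) : α)) := by
  refine ⟨fun x y h => Subtype.ext (Subtype.ext h), fun x y => Iff.rfl, fun y => ?_⟩
  rw [Finset.mem_coe, mem_lkF]
  constructor
  · rintro ⟨h1, h2⟩
    exact ⟨⟨⟨y, h1⟩, h2 _ (by simp), h2 _ (by simp)⟩, rfl⟩
  · rintro ⟨x, rfl⟩
    refine ⟨x.1.2, fun z hz => ?_⟩
    rw [Finset.mem_insert, Finset.mem_singleton] at hz
    rcases hz with rfl | rfl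
    · exact x.2.1
    · exact x.2.2

/-- the step: the contraction is the suspension of the link of `v` -/
theorem er_split {d : ℕ} {C : Finset α} (h : NP H (d + 2) C) {v a b : α} (hv : v ∈ C) (ha : a ∈ C)
    (hb : b ∈ C) (hab : H.Adj a b) (hM : nn H C v = {a, b}) (hsq : Sq H C a b)
    (e1 : ER (d + 1) (H.induce ((lk H C v : Finset α) : Set α)))
    (e2 : ER (d + 1) (H.induce ((lk H C a : Finset α) : Set α)))
    (e3 : ER (d + 1) (H.induce ((lk H C b : Finset α) : Set α)))
    (e4 : ER d (H.induce ((lkF H C {a, b} : Finset α) : Set α))) :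
    ER (d + 2) (H.induce (C : Set α)) := by
  classical
  have hva : ¬ H.Adj v a := (mem_nn.1 (by rw [hM]; simp : a ∈ nn H C v)).2.2
  have hvb : ¬ H.Adj v b := (mem_nn.1 (by rw [hM]; simp : b ∈ nn H C v)).2.2
  have hav : a ≠ v := (mem_nn.1 (by rw [hM]; simp : a ∈ nn H C v)).2.1
  have hbv : b ≠ v := (mem_nn.1 (by rw [hM]; simp : b ∈ nn H C v)).2.1
  have inL : ∀ z ∈ C, z ≠ v → z ≠ a → z ≠ b → H.Adj v z := by
    intro z hz hzv hza hzb
    by_contra hn
    have : z ∈ nn H C v := mem_nn.2 ⟨hz, hzv, hn⟩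
    rw [hM, Finset.mem_insert, Finset.mem_singleton] at this
    tauto
  have hor : ∀ x ∈ C, H.Adj v x → H.Adj a x ∨ H.Adj b x := by
    intro x hx hvx
    have hvx' : v ∈ lk H C x := mem_lk.2 ⟨hv, hvx.symm⟩
    obtain ⟨u, u1, u2, u3⟩ := (h.lk hx).exists_nonadj hvx'
    have : u ∈ nn H C v := mem_nn.2 ⟨lk_subset u1, u2, u3⟩
    rw [hM, Finset.mem_insert, Finset.mem_singleton] at this
    rcases this with rfl | rfl
    · exact Or.inl (mem_lk.1 u1).2.symm
    · exact Or.inr (mem_lk.1 u1).2.symm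
  obtain ⟨s, hs⟩ : ∃ s : ↥(C : Set α), (s : α) = a := ⟨⟨a, ha⟩, rfl⟩
  obtain ⟨t, ht⟩ : ∃ t : ↥(C : Set α), (t : α) = b := ⟨⟨b, hb⟩, rfl⟩
  subst hs ht
  refine ER.split _ s t hab ?_ ?_ (emb_edge.er e4) (ER.succ _ (emb_nbr.er e2))
    (ER.succ _ (emb_nbr.er e3))
  · intro x y h1 h2 h3 h4 h5 h6 h7
    have hyt : H.Adj (t : α) (y : α) := h4
    have hyx : H.Adj (y : α) (x : α) := h7.symm
    have hxs : H.Adj (x : α) (s : α) := h1.symm
    rcases hsq y y.2 x x.2 (fun h => h6 (Subtype.ext h)) (fun h => h3 (Subtype.ext h)) hyt hyx hxs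
      with h | h
    · exact h5 h
    · exact h2 h
  · -- the contraction
    set P := (con (H.induce (C : Set α)) s t).induce {t}ᶜ with hP
    have hPadj : ∀ x y : ↥({t}ᶜ : Set ↥(C : Set α)), P.Adj x y ↔
        (con (H.induce (C : Set α)) s t).Adj x.1 y.1 := fun x y => Iff.rfl
    let A0 : Set ↥({t}ᶜ : Set ↥(C : Set α)) := {x | (x.1 : α) = v ∨ (x.1 : α) = (s : α)}
    let B0 : Set ↥({t}ᶜ : Set ↥(C : Set α)) := {x | H.Adj v (x.1 : α)}
    have hun : A0 ∪ B0 = Set.univ := by
      ext x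
      simp only [Set.mem_union, Set.mem_univ, iff_true]
      by_cases h1 : (x.1 : α) = v
      · exact Or.inl (Or.inl h1)
      by_cases h2 : (x.1 : α) = (s : α)
      · exact Or.inl (Or.inr h2)
      · exact Or.inr (inL _ x.1.2 h1 h2 (fun h => x.2 (Subtype.ext h)))
    have hfull : ∀ x ∈ A0, ∀ y ∈ B0, P.Adj x y := by
      intro x hx y hy
      have hy' : H.Adj v (y.1 : α) := hy
      have hxt : x.1 ≠ t := x.2
      have hyt : y.1 ≠ t := y.2
      rw [hPadj]
      rcases hx with hx | hx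
      · refine ⟨fun h => ?_, hxt, hyt, Or.inl ?_⟩
        · rw [h] at hx
          rw [hx] at hy'
          exact hy'.ne rfl
        · change H.Adj (x.1 : α) (y.1 : α)
          rw [hx]
          exact hy'
      · have hxs : x.1 = s := Subtype.ext hx
        refine ⟨fun h => ?_, hxt, hyt, ?_⟩
        · rw [← h, hxs] at hy'
          exact hva hy'
        · rcases hor _ y.1.2 hy' with h | h
          · left
            change H.Adj (x.1 : α) (y.1 : α)
            rw [hxs]
            exact h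
          · exact Or.inr (Or.inl ⟨hxs, h⟩)
    have hA : ER 1 (P.induce A0) := by
      refine er_two _ ?_
      have h1 : (fun x : ↥A0 => ((x.1.1 : ↥(C : Set α)) : α)) '' Set.univ ⊆
          (({v, (s : α)} : Finset α) : Set α) := by
        rintro _ ⟨x, -, rfl⟩
        rw [Finset.mem_coe, Finset.mem_insert, Finset.mem_singleton]
        exact x.2
      have h2 := Set.ncard_le_ncard h1 (Finset.finite_toSet _)
      rw [Set.ncard_image_of_injective _ (fun x y hxy => Subtype.ext (Subtype.ext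
        (Subtype.ext hxy))), Set.ncard_univ, Set.ncard_coe_finset] at h2
      exact h2.trans Finset.card_le_two
    have hB : ER (d + 1) (P.induce B0) := by
      refine Emb.er (j := fun x => ((x.1.1 : ↥(C : Set α)) : α)) ⟨?_, ?_, ?_⟩ e1
      · intro x y hxy
        exact Subtype.ext (Subtype.ext (Subtype.ext hxy))
      · intro x y
        have hxv : H.Adj v (x.1.1 : α) := x.2
        have hyv : H.Adj v (y.1.1 : α) := y.2
        have hxs : x.1.1 ≠ s := fun h => hva (by rw [h] at hxv; exact hxv)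
        have hys : y.1.1 ≠ s := fun h => hva (by rw [h] at hyv; exact hyv)
        change (con (H.induce (C : Set α)) s t).Adj x.1.1 y.1.1 ↔ _
        constructor
        · rintro ⟨-, -, -, h1 | h1 | h1⟩
          · exact h1
          · exact absurd h1.1 hxs
          · exact absurd h1.1 hys
        · intro h1
          exact ⟨fun h2 => h1.ne (by rw [h2]), x.1.2, y.1.2, Or.inl h1⟩
      · intro y
        rw [Finset.mem_coe, mem_lk]
        constructor
        · rintro ⟨h1, h2⟩
          refine ⟨⟨⟨⟨y, h1⟩, fun h => ?_⟩, h2⟩, rfl⟩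
          have h3 : y = (t : α) := congrArg Subtype.val h
          rw [h3] at h2
          exact hvb h2
        · rintro ⟨x, rfl⟩
          exact ⟨x.1.1.2, x.2⟩
    have h5 := er_join hfull hA hB
    rw [hun, show 1 + (d + 1) = d + 2 by omega] at h5
    refine Emb.er (j := fun x => x) ⟨fun _ _ h => h, fun _ _ => Iff.rfl, fun y => ?_⟩ h5
    exact ⟨fun _ => ⟨y, rfl⟩, fun _ => Set.mem_univ _⟩

/-- **defect zero** -/
theorem er_zero {d : ℕ} {W : Finset α} (h : NP H d W) (hE : Eul H d W)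
    (hδ : W.card + (comps H W).card ≤ 3 * d) : ER d (H.induce (W : Set α)) := by
  revert hδ
  refine join_induction' (H := H) (P := fun d W => W.card + (comps H W).card ≤ 3 * d →
    ER d (H.induce (W : Set α))) ?_ ?_ ?_ h hE
  · intro _
    exact er_empty
  · intro d W h hE hp ih hδ
    rcases d with _ | d
    · have h' : W.card = 2 ∧ ∀ x ∈ W, ∀ y ∈ W, ¬ H.Adj x y := h
      exact er_pt h'.1.le
    rw [comps_prm hp, Finset.card_singleton] at hδ
    obtain ⟨v, hv, a, ha, b, hb, hab, hM, hsq⟩ := prm_data h hE hp (by omega)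
    have ihF : ∀ κ ∈ cl H W, κ.Nonempty → ∀ e, e + κ.card = d + 2 →
        ER e (H.induce ((lkF H W κ : Finset α) : Set α)) := by
      intro κ hκ hκne e he
      obtain ⟨e', he', hNP, hdef, hcard⟩ := h.lkF hκ
      obtain rfl : e' = e := by omega
      have := Finset.card_pos.2 hκne
      rw [comps_prm hp, Finset.card_singleton] at hdef
      exact ih _ _ hNP (hE.lkF_rank hκ he') (by omega) (by omega)
    have ih1 : ∀ u ∈ W, ER (d + 1) (H.induce ((lk H W u : Finset α) : Set α)) := by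
      intro u hu
      have := ihF {u} (singleton_mem_cl hu) (Finset.singleton_nonempty u) (d + 1) (by simp)
      rwa [lkF_singleton] at this
    exact er_split h hv ha hb hab hM hsq (ih1 v hv) (ih1 a ha) (ih1 b hb)
      (ihF {a, b} (pair_mem_cl ha hb hab) ⟨a, by simp⟩ d (by rw [Finset.card_pair hab.ne]))
  · intro d₁ d₂ A B hA hB _ _ _ hAB h1 h2 hδ
    rw [card_comps_union hAB, Finset.card_union_of_disjoint hAB.disjoint] at hδ
    have k1 := hA.three_mul_le
    have k2 := hB.three_mul_le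
    have := er_join (G := H) (A := (A : Set α)) (B := (B : Set α)) hAB (h1 (by omega)) (h2 (by omega))
    rwa [← Finset.coe_union] at this

/-- even rank: from the vertex links -/
theorem er_loc {m : ℕ} {X : Finset α}
    (h : ∀ v ∈ X, ER (2 * m + 1) (H.induce ((lk H X v : Finset α) : Set α))) :
    ER (2 * m + 2) (H.induce (X : Set α)) := by
  refine ER.loc _ ∅ (fun T _ hT => ?_) fun v _ => ?_
  · have : T = ∅ := by
      rw [← Finset.coe_eq_empty]
      exact Set.subset_empty_iff.1 hT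
    rw [this]
    simp
  · exact emb_nbr.er (h v v.2)

end Pool.Agent.U410.ES
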